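import Pool.Agent.W_MP_be22fd_co.Defs
import Pool.Agent.W_be22fd_h39.Final6

/-!
MP_be22fd_co: a lower bound `c n ^ (2 - ε)`, for every `ε > 0`, for the polynomial
degree needed to realise all simple arrangements of `n` pseudolines.
-/

namespace Pool.Agent.Results.MP_be22fd_co.NearQuadratic

open Pool.Agent.W_MP_be22fd_co

/-- For every `ε > 0` there is `c > 0` such that for all `n ≥ 2`: if every simple arrangement of
`n` pseudolines is `d`-stretchable, then `c n ^ (2 - ε) ≤ d`. -/
theorem result (ε : ℝ) (hε : 0 < ε) :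
    ∃ c : ℝ, 0 < c ∧ ∀ n d : ℕ, 2 ≤ n →
      (∀ f : Fin n → ℝ → ℝ, IsArrangement f → IsSimple f → Stretchable d f) →
      c * (n : ℝ) ^ (2 - ε) ≤ d :=
  Pool.Agent.W_be22fd_h39.near_quadratic ε hε

end Pool.Agent.Results.MP_be22fd_co.NearQuadratic
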