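import Pool.Agent.W_be22fd_h39.Resolve
import Pool.Agent.W_be22fd_h39.CubicLines

/-!
MP_be22fd_co, partial answer: a linear upper bound for the degree of the simple arrangements
which resolve an arrangement of graphs of polynomials, sharp up to a logarithm.
-/

namespace Pool.Agent.Results.MP_be22fd_co.ResolvedArrangements

open Filter
open Pool.Agent.W_MP_be22fd_co Pool.Agent.W_be22fd_h39

theorem upper (n D M : ℕ) (f : Fin n → ℝ → ℝ) (g : Fin n → Polynomial ℝ) (hg : Base g)
    (hD : ∀ i, (g i).natDegree ≤ D) (hf : Resolves f g)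
    (hloc : NoFour (ev g) ∨ ∃ α, LocalLines f g α) (hM : ∀ i, (multi (ev g) i).ncard ≤ M) :
    Stretchable (max D (2 * (M / 2) + 1)) f := by
  have hα : ∃ α, LocalLines f g α := by
    rcases hloc with h | h
    · refine exists_offsets f g (fun i k hik => ?_) h hg.trans
      obtain ⟨t, _, ht | ht⟩ := hf.arr.cross i k hik
      · refine ⟨t, fun x hx => ?_⟩
        rcases lt_trichotomy x t with h1 | h1 | h1
        · exact absurd hx (ht.1 x h1).ne
        · exact h1
        · exact absurd hx (ht.2 x h1).ne'
      · refine ⟨t, fun x hx => ?_⟩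
        rcases lt_trichotomy x t with h1 | h1 | h1
        · exact absurd hx (ht.1 x h1).ne'
        · exact h1
        · exact absurd hx (ht.2 x h1).ne
    · exact h
  obtain ⟨α, hα⟩ := hα
  exact main_of_offsets f g hf.arr hf.simple hf.lab hD hg.arr hg.lab hg.trans hf.side α hα hM

theorem count (n : ℕ) (g : Fin n → Polynomial ℝ) (hg : Base g) (i : Fin n) :
    2 * (multi (ev g) i).ncard ≤ n - 1 := by
  obtain ⟨Y, hY⟩ := exists_preCross hg.arr hg.lab
  exact two_mul_multi_le hY i

theorem natDegree_cubicLines (n : ℕ) (i : Fin n) : (cubicLines n i).natDegree ≤ 1 := by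
  unfold cubicLines
  compute_degree

/-- (1) A simple arrangement `f` which resolves an arrangement `g` of graphs of polynomials of
degree at most `D`, with at most `M` multiple points on each curve and no four curves through a
point (or with multiple points resolved locally by lines), is stretchable in degree
`max D (2 ⌊M / 2⌋ + 1)`.
(2) A curve always carries at most `(n - 1) / 2` multiple points, so that degree
`max D ((n + 1) / 2)` always suffices.
(3), (4) This is sharp up to a logarithm: the straight lines `y = t x - t ^ 3` are an example of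
such a `g`, and some of their resolutions need degree at least `n / (20000 log n)`. -/
theorem result :
    (∀ (n D M : ℕ) (f : Fin n → ℝ → ℝ) (g : Fin n → Polynomial ℝ), Base g →
      (∀ i, (g i).natDegree ≤ D) → Resolves f g →
      (NoFour (ev g) ∨ ∃ α, LocalLines f g α) → (∀ i, (multi (ev g) i).ncard ≤ M) →
      Stretchable (max D (2 * (M / 2) + 1)) f) ∧
    (∀ (n : ℕ) (g : Fin n → Polynomial ℝ), Base g →
      ∀ i, 2 * (multi (ev g) i).ncard ≤ n - 1) ∧
    (∀ n : ℕ, Base (cubicLines n) ∧ NoFour (ev (cubicLines n)) ∧
      ∀ i, (cubicLines n i).natDegree ≤ 1) ∧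
    (∀ᶠ n : ℕ in atTop, ∀ d : ℕ,
      (∀ f : Fin n → ℝ → ℝ, Resolves f (cubicLines n) → Stretchable d f) →
        (n : ℝ) / (20000 * Real.log n) ≤ d) :=
  ⟨upper, count, fun n => ⟨base_cubicLines n, noFour_cubicLines n, natDegree_cubicLines n⟩,
    lower_cubicLines⟩

end Pool.Agent.Results.MP_be22fd_co.ResolvedArrangements
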